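import Pool.Agent.H82.EUC.Stmts4

set_option autoImplicit false

namespace Pool.EUC

theorem pdm_inf {P : Type} [PartialOrder P] (x y : P) (h : ¬ y ≤ x) :
    (LowerSet.Iic x ⊔ LowerSet.Iio y) ⊓ LowerSet.Iic y = LowerSet.Iio y := by
  ext z
  simp only [SetLike.mem_coe, LowerSet.mem_inf_iff, LowerSet.mem_sup_iff, LowerSet.mem_Iic_iff,
    LowerSet.mem_Iio_iff]
  constructor
  · rintro ⟨h1 | h1, h2⟩
    · refine lt_of_le_of_ne h2 ?_
      rintro rfl
      exact h h1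
    · exact h1
  · intro h1
    exact ⟨Or.inr h1, h1.le⟩

theorem pdm_key (h1 : OPP_S) {A P : Type} [PartialOrder P] (dM dW : A → A → ℝ) (hM : Inj dM)
    (hW : Inj dW) (g : LowerSet P → Equiv.Perm A) (hg : IsLat P dM dW g) (x y : P)
    (hyx : ¬ y ≤ x) (m : A) (hy : Mo g y m) :
    dM m (g (LowerSet.Iic x) m) ≤ dM m (g (LowerSet.Iio y) m) := by
  have e := (hg.meet (LowerSet.Iic x ⊔ LowerSet.Iio y) (LowerSet.Iic y)).2 m
  rw [pdm_inf x y hyx] at e
  have hne : dM m (g (LowerSet.Iio y) m) ≠ dM m (g (LowerSet.Iic y) m) := fun h => hy (hM m h)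
  have e2 : dM m (g (LowerSet.Iio y) m) = dM m (g (LowerSet.Iic x ⊔ LowerSet.Iio y) m) := by
    rcases min_choice (dM m (g (LowerSet.Iic x ⊔ LowerSet.Iio y) m))
      (dM m (g (LowerSet.Iic y) m)) with h | h
    · rw [e, h]
    · exact absurd (e.trans h) hne
  rw [e2]
  exact h1 A dM dW hM hW _ _ (hg.stb _) (hg.stb _) (hg.mono _ _ le_sup_left) m

theorem pdm_lt (h1 : OPP_S) {A P : Type} [PartialOrder P] (dM dW : A → A → ℝ) (hM : Inj dM)
    (hW : Inj dW) (g : LowerSet P → Equiv.Perm A) (hg : IsLat P dM dW g) (x : P) (m : A)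
    (hx : Mo g x m) : dM m (g (LowerSet.Iio x) m) < dM m (g (LowerSet.Iic x) m) := by
  have hle : LowerSet.Iio x ≤ LowerSet.Iic x := by
    intro z hz
    exact (LowerSet.mem_Iio_iff.1 hz).le
  refine lt_of_le_of_ne
    (h1 A dM dW hM hW _ _ (hg.stb _) (hg.stb _) (hg.mono _ _ hle) m) ?_
  exact fun h => hx (hM m h)

theorem pdm_thm (h1 : OPP_S) : PDM_S := by
  intro A P _ dM dW hM hW g hg x y hxy hyx m hx hy
  have a1 := pdm_lt h1 dM dW hM hW g hg x m hx
  have a2 := pdm_key h1 dM dW hM hW g hg x y hyx m hy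
  have a3 := pdm_lt h1 dM dW hM hW g hg y m hy
  have a4 := pdm_key h1 dM dW hM hW g hg y x hxy m hx
  linarith

end Pool.EUC
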